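import Pool.Agent.Helper97.Tns.Goals

/-!
The basic facts on the polynomials `Ent`.
-/

open MvPolynomial

namespace Pool.Agent.Helper94.Tns

open Classical in
lemma expand {n : ℕ} {ι : Type} [Fintype ι]
    (T : MultilinearMap ℂ (fun _ : ι => (Fin n → ℂ)) ℂ) (v : ι → Fin n → ℂ) :
    T v = ∑ J : ι → Fin n, T (fun t => Pi.single (J t) 1) * ∏ t, v t (J t) := by
  have h1 : v = fun t => ∑ j, v t j • (Pi.single j (1 : ℂ) : Fin n → ℂ) := by
    funext t
    conv_lhs => rw [pi_eq_sum_univ' (v t)]
  conv_lhs => rw [h1, MultilinearMap.map_sum]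
  refine Finset.sum_congr rfl fun J _ => ?_
  rw [MultilinearMap.map_smul_univ, smul_eq_mul, mul_comm]

theorem s_ENT : Pool.Agent.Helper97.Tns.S_ENT := by
  classical
  intro n ι _ T I
  refine ⟨?_, ?_, ?_⟩
  · unfold Pool.Agent.Helper97.Tns.Ent
    refine IsHomogeneous.sum _ _ _ fun J _ => ?_
    have h1 : (∏ t : ι, (X (J t, I t) : MvPolynomial (Fin n × Fin n) ℂ)).IsHomogeneous
        (∑ _t : ι, 1) := IsHomogeneous.prod _ _ _ fun t _ => isHomogeneous_X ℂ _
    have h2 := (isHomogeneous_C (Fin n × Fin n)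
      (T fun t => (Pi.single (J t) (1 : ℂ) : Fin n → ℂ))).mul h1
    rw [zero_add, Finset.sum_const, smul_eq_mul, mul_one, Finset.card_univ] at h2
    exact h2
  · intro A
    unfold Pool.Agent.Helper97.Tns.Ent
    rw [map_sum, expand T]
    refine Finset.sum_congr rfl fun J _ => ?_
    rw [map_mul, eval_C, map_prod]
    simp only [eval_X]
  · intro A
    unfold Pool.Agent.Helper97.Tns.Ent
    have h1 : ∀ K : ι → Fin n, (T.compLinearMap fun _ => A.toLin')
        (fun t => (Pi.single (K t) (1 : ℂ) : Fin n → ℂ)) =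
        ∑ J : ι → Fin n, T (fun t => Pi.single (J t) 1) * ∏ t, A (J t) (K t) := by
      intro K
      rw [MultilinearMap.compLinearMap_apply, expand T]
      refine Finset.sum_congr rfl fun J _ => ?_
      congr 1
      refine Finset.prod_congr rfl fun t _ => ?_
      rw [Matrix.toLin'_apply, Matrix.mulVec_single_one]
      rfl
    simp only [h1]
    rw [map_sum]
    unfold Pool.Agent.Helper97.Tns.subst
    simp only [map_mul, map_prod, aeval_X, algHom_C, algebraMap_eq]
    have h2 : ∀ J : ι → Fin n, (∏ t, ∑ k, (C (A (J t) k) * X (k, I t) :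
        MvPolynomial (Fin n × Fin n) ℂ)) =
        ∑ K : ι → Fin n, ∏ t, (C (A (J t) (K t)) * X (K t, I t)) := by
      intro J
      rw [Finset.prod_univ_sum, Fintype.piFinset_univ]
    simp only [h2, Finset.mul_sum, map_sum, map_mul, map_prod, Finset.sum_mul]
    rw [Finset.sum_comm]
    refine Finset.sum_congr rfl fun K _ => Finset.sum_congr rfl fun J _ => ?_
    rw [Finset.prod_mul_distrib]
    ring

end Pool.Agent.Helper94.Tns
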