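import Pool.Agent.Helper97.Tns.Goals

/-!
Elementary divisors over a valuation ring.
-/

open Matrix

namespace Pool.Agent.Helper94.Tns

variable {K : Type} [Field K] (V : ValuationSubring K)

lemma smith_step (n : ℕ)
    (ih : ∀ M : Matrix (Fin n) (Fin n) K, ∃ (U W : Matrix (Fin n) (Fin n) V) (d : Fin n → K),
      IsUnit U.det ∧ IsUnit W.det ∧
        M = U.map (algebraMap V K) * Matrix.diagonal d * W.map (algebraMap V K))
    (M : Matrix (Unit ⊕ Fin n) (Unit ⊕ Fin n) K) (h0 : M (Sum.inl ()) (Sum.inl ()) ≠ 0)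
    (hV : ∀ i j, M i j / M (Sum.inl ()) (Sum.inl ()) ∈ V) :
    ∃ (U W : Matrix (Unit ⊕ Fin n) (Unit ⊕ Fin n) V) (d : Unit ⊕ Fin n → K),
      IsUnit U.det ∧ IsUnit W.det ∧
        M = U.map (algebraMap V K) * Matrix.diagonal d * W.map (algebraMap V K) := by
  set a := M (Sum.inl ()) (Sum.inl ()) with ha
  set c : Matrix (Fin n) Unit V := Matrix.of fun i _ => ⟨M (Sum.inr i) (Sum.inl ()) / a, hV _ _⟩
    with hc
  set r : Matrix Unit (Fin n) V := Matrix.of fun _ j => ⟨M (Sum.inl ()) (Sum.inr j) / a, hV _ _⟩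
    with hr
  set A : Matrix Unit Unit K := Matrix.diagonal fun _ => a with hA
  obtain ⟨U, W, d, hU, hW, hM⟩ := ih (M.toBlocks₂₂ -
    c.map (algebraMap V K) * A * r.map (algebraMap V K))
  refine ⟨fromBlocks 1 0 c U, fromBlocks 1 r 0 W, Sum.elim (fun _ => a) d, ?_, ?_, ?_⟩
  · rw [det_fromBlocks_zero₁₂, det_one, one_mul]
    exact hU
  · rw [det_fromBlocks_zero₂₁, det_one, one_mul]
    exact hW
  · have hd : Matrix.diagonal (Sum.elim (fun _ : Unit => a) d) =
        fromBlocks A 0 0 (Matrix.diagonal d) := (fromBlocks_diagonal _ _).symm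
    have h1 : (fromBlocks (1 : Matrix Unit Unit V) 0 c U).map (algebraMap V K) =
        fromBlocks 1 0 (c.map (algebraMap V K)) (U.map (algebraMap V K)) := by
      rw [fromBlocks_map, Matrix.map_zero _ (map_zero _),
        Matrix.map_one _ (map_zero _) (map_one _)]
    have h2 : (fromBlocks (1 : Matrix Unit Unit V) r 0 W).map (algebraMap V K) =
        fromBlocks 1 (r.map (algebraMap V K)) 0 (W.map (algebraMap V K)) := by
      rw [fromBlocks_map, Matrix.map_zero _ (map_zero _),
        Matrix.map_one _ (map_zero _) (map_one _)]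
    rw [hd, h1, h2, fromBlocks_multiply, fromBlocks_multiply]
    simp only [Matrix.one_mul, Matrix.zero_mul, Matrix.mul_zero, add_zero, zero_add,
      Matrix.mul_one]
    rw [← hM, add_sub_cancel]
    conv_lhs => rw [← fromBlocks_toBlocks M]
    congr 1
    · ext i j
      rw [hA, Matrix.diagonal_mul, Matrix.map_apply, hr, Matrix.of_apply]
      change M (Sum.inl i) (Sum.inr j) = a * (M (Sum.inl ()) (Sum.inr j) / a)
      rw [mul_div_cancel₀ _ h0]
    · ext i j
      rw [hA, Matrix.mul_diagonal, Matrix.map_apply, hc, Matrix.of_apply]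
      change M (Sum.inr i) (Sum.inl j) = (M (Sum.inr i) (Sum.inl ()) / a) * a
      rw [div_mul_cancel₀ _ h0]

theorem s_SMITH : Pool.Agent.Helper97.Tns.S_SMITH := by
  intro K _ V n
  induction n with
  | zero =>
    intro M
    refine ⟨1, 1, fun _ => 0, ?_, ?_, ?_⟩
    · rw [det_one]; exact isUnit_one
    · rw [det_one]; exact isUnit_one
    · ext i j
      exact i.elim0
  | succ n ih =>
    intro M
    by_cases hM : M = 0
    · refine ⟨1, 1, fun _ => 0, ?_, ?_, ?_⟩
      · rw [det_one]; exact isUnit_one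
      · rw [det_one]; exact isUnit_one
      · rw [hM]
        have : (Matrix.diagonal fun _ : Fin (n + 1) => (0 : K)) = 0 := Matrix.diagonal_zero
        rw [this, Matrix.mul_zero, Matrix.zero_mul]
    · obtain ⟨⟨i₀, j₀⟩, -, hmax⟩ := Finset.exists_max_image
        (Finset.univ : Finset (Fin (n + 1) × Fin (n + 1)))
        (fun ij => V.valuation (M ij.1 ij.2)) Finset.univ_nonempty
      have hmax' : ∀ i j, V.valuation (M i j) ≤ V.valuation (M i₀ j₀) := fun i j =>
        hmax (i, j) (Finset.mem_univ _)
      have hne : M i₀ j₀ ≠ 0 := by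
        intro h
        apply hM
        ext i j
        have h1 := hmax' i j
        rw [h, map_zero, le_zero_iff] at h1
        exact (map_eq_zero _).1 h1
      -- the equivalences
      obtain ⟨e, he⟩ : ∃ e : Fin (n + 1) ≃ Unit ⊕ Fin n, e i₀ = Sum.inl () := by
        let e₀ : Fin (n + 1) ≃ Unit ⊕ Fin n :=
          (finSuccEquiv n).trans ((Equiv.optionEquivSumPUnit _).trans (Equiv.sumComm _ _))
        refine ⟨(Equiv.swap i₀ (e₀.symm (Sum.inl ()))).trans e₀, ?_⟩
        rw [Equiv.trans_apply, Equiv.swap_apply_left, Equiv.apply_symm_apply]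
      obtain ⟨f, hf⟩ : ∃ f : Fin (n + 1) ≃ Unit ⊕ Fin n, f j₀ = Sum.inl () := by
        let e₀ : Fin (n + 1) ≃ Unit ⊕ Fin n :=
          (finSuccEquiv n).trans ((Equiv.optionEquivSumPUnit _).trans (Equiv.sumComm _ _))
        refine ⟨(Equiv.swap j₀ (e₀.symm (Sum.inl ()))).trans e₀, ?_⟩
        rw [Equiv.trans_apply, Equiv.swap_apply_left, Equiv.apply_symm_apply]
      have he' : e.symm (Sum.inl ()) = i₀ := by rw [← he, Equiv.symm_apply_apply]
      have hf' : f.symm (Sum.inl ()) = j₀ := by rw [← hf, Equiv.symm_apply_apply]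
      obtain ⟨U, W, d, hU, hW, hd⟩ := smith_step V n ih (M.submatrix e.symm f.symm)
        (by rw [Matrix.submatrix_apply, he', hf']; exact hne)
        (by
          intro i j
          rw [Matrix.submatrix_apply, Matrix.submatrix_apply, he', hf',
            ← ValuationSubring.valuation_le_one_iff, map_div₀]
          have h1 : V.valuation (M i₀ j₀) ≠ 0 := (Valuation.ne_zero_iff _).2 hne
          exact div_le_one_of_le₀ (hmax' _ _) zero_le)
      refine ⟨U.submatrix e e, W.submatrix e f, d ∘ e, ?_, ?_, ?_⟩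
      · rw [Matrix.det_submatrix_equiv_self]
        exact hU
      · have h1 : W.submatrix e f = (W.submatrix e e).submatrix id (f.trans e.symm) := by
          ext i j
          simp
        rw [h1, Matrix.det_permute', Matrix.det_submatrix_equiv_self]
        refine IsUnit.mul ?_ hW
        have := (Equiv.Perm.sign (f.trans e.symm)).isUnit
        exact (this.map (Int.castRingHom V))
      · have h1 : M = (M.submatrix e.symm f.symm).submatrix e f := by
          ext i j
          simp
        rw [h1, hd]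
        rw [← Matrix.submatrix_mul_equiv _ _ e e f, ← Matrix.submatrix_mul_equiv _ _ e e e,
          Matrix.submatrix_diagonal_equiv]
        rfl

end Pool.Agent.Helper94.Tns
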